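import Pool.Agent.Helper97.Nag.Goals

/-!
# Packet NUMV of project NAG: the number of sections for k = 3
-/

namespace Pool.Agent.Helper28.Nag.NUMV

open Pool.Agent.Helper97.Nag

theorem two_choose (n : ℕ) : 2 * (n + 1).choose 2 = (n + 1) * n := by
  rw [Nat.choose_two_right, Nat.add_sub_cancel]
  exact Nat.two_mul_div_two_of_even (by rw [mul_comm]; exact Nat.even_mul_succ_self n)

/-- The sum over the levels `≥ m`. -/
def T (e : ℕ) : ℕ := ∑ i ∈ Finset.range (e / 3 + 1), if 3 * i = e then 1 else 3 * (e - 3 * i)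

theorem T_step (e : ℕ) : T (e + 3) = T e + 3 * (e + 3) := by
  unfold T
  have h1 : (e + 3) / 3 + 1 = (e / 3 + 1) + 1 := by omega
  rw [h1, Finset.sum_range_succ']
  congr 1
  refine Finset.sum_congr rfl fun i _ => ?_
  by_cases h : 3 * i = e
  · rw [if_pos h, if_pos (by omega)]
  · rw [if_neg h, if_neg (by omega)]
    congr 1
    omega

theorem T_eq : ∀ e : ℕ, 2 * T e = (e + 2) * (e + 1)
  | 0 => by simp [T]
  | 1 => by simp [T]
  | 2 => by simp [T]
  | e + 3 => by
    have h1 := T_eq e
    rw [T_step, mul_add, h1]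
    ring

theorem t : S_NUMV := by
  intro d m hd
  obtain ⟨e, rfl⟩ : ∃ e, d = 3 * m + e := ⟨d - 3 * m, by omega⟩
  have he : 0 < e := by omega
  have h1 : (3 * m + e) / 3 + 1 = m + (e / 3 + 1) := by omega
  have h2 : ∑ j ∈ Finset.range ((3 * m + e) / 3 + 1), nu 3 (3 * m + e) m j = m * (3 * e) + T e := by
    rw [h1, Finset.sum_range_add]
    congr 1
    · have h7 : ∀ j ∈ Finset.range m, nu 3 (3 * m + e) m j = 3 * e := by
        intro j hj
        rw [Finset.mem_range] at hj
        unfold nu kap
        rw [if_neg (by omega), max_eq_right hj.le]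
        congr 1
        omega
      rw [Finset.sum_congr rfl h7, Finset.sum_const, Finset.card_range, smul_eq_mul]
    · unfold T
      refine Finset.sum_congr rfl fun i _ => ?_
      unfold nu kap
      by_cases h : 3 * i = e
      · rw [if_pos h, if_pos (by omega)]
      · rw [if_neg h, if_neg (by omega), max_eq_left (by omega)]
        congr 1
        omega
  rw [h2]
  have h3 := T_eq e
  have h4 := two_choose m
  have h5 := two_choose (3 * m + e + 1)
  have h6 : 2 * (m * (3 * e) + T e + 9 * (m + 1).choose 2) = 2 * (3 * m + e + 2).choose 2 := by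
    calc 2 * (m * (3 * e) + T e + 9 * (m + 1).choose 2)
        = 2 * (m * (3 * e)) + 2 * T e + 9 * (2 * (m + 1).choose 2) := by ring
      _ = 2 * (m * (3 * e)) + (e + 2) * (e + 1) + 9 * ((m + 1) * m) := by rw [h3, h4]
      _ = (3 * m + e + 1 + 1) * (3 * m + e + 1) := by ring
      _ = 2 * (3 * m + e + 2).choose 2 := h5.symm
  exact Nat.eq_of_mul_eq_mul_left (by norm_num) h6

end Pool.Agent.Helper28.Nag.NUMV
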